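import Pool.Agent.H68.Sx4

set_option autoImplicit false

namespace Pool.Agent.Results.MP_36bee3_al.NotR0

open Pool.Agent.H68.Sx Pool.Agent.H68.Fit

/-- There is a Fischer class of finite soluble groups (an `N₀`-closed and `F`-closed class) that is
not closed under subdirect products. -/
theorem result :
    ∃ X : (G : Type) → [Group G] → Prop,
      (∀ (G : Type) [Group G], X G → Finite G ∧ Group.IsSolvable G) ∧
      X Unit ∧
      (∀ (G H : Type) [Group G] [Group H], (G ≃* H) → X G → X H) ∧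
      (∀ (G : Type) [Group G] [Finite G] (s : Set (Subgroup G)),
        (∀ N ∈ s, N.IsSubnormal ∧ X N) → sSup s = ⊤ → X G) ∧
      (∀ (H : Type) [Group H] (G : Subgroup H), X H →
        Group.IsNilpotent (G ⧸ G.normalCore.subgroupOf G) → X G) ∧
      ∃ (G : Type) (_ : Group G) (_ : Finite G), Group.IsSolvable G ∧
        ∃ (M₁ M₂ : Subgroup G) (_ : M₁.Normal) (_ : M₂.Normal), M₁ ⊓ M₂ = ⊥ ∧
          X (G ⧸ M₁) ∧ X (G ⧸ M₂) ∧ ¬ X G := by
  have h0 : FC (XY 5 3 5) := xy_fc (by norm_num) (by norm_num) (by norm_num)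
  have hF := ww_fc h0
  refine ⟨WW (XY 5 3 5), hF.fin, hF.unit, hF.iso, fun G _ _ s => fc_n0 hF s, fun H _ G h hn => ?_,
    EE b2, inferInstance, inferInstance, ee_solv, q1.ker, q2.ker, inferInstance, inferInstance, ?_,
    hF.iso _ _ (QuotientGroup.quotientKerEquivOfSurjective q1 fun x => ?_).symm b1_ww,
    hF.iso _ _ (QuotientGroup.quotientKerEquivOfSurjective q2 fun x => ?_).symm b1_ww, b2_not⟩
  · have := h.1
    exact ww_sub h0 h G.subtype G.subtype_injective G.normalCore
      (by rw [Subgroup.range_subtype]; exact G.normalCore_le) (tt_nil (G := G ⧸ G.normalCore.subgroupOf G))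
  · refine eq_bot_iff.2 fun x hx => ?_
    have a := congrArg EE.v hx.1
    have b := congrArg EE.v hx.2
    have c := congrArg EE.l hx.1
    have a1 := congrArg Prod.fst a
    have a2 := congrArg Prod.snd a
    have b2 := congrArg Prod.snd b
    have c1 := congrArg EE.c hx.1
    have c2 := congrArg EE.c hx.2
    exact EE.ext (Prod.ext a1 (Prod.ext a2 b2)) (Prod.ext c1 c2) c
  · exact ⟨⟨(x.v.1, x.v.2, 0), (x.c, 0), x.l⟩, rfl⟩
  · exact ⟨⟨(x.v.1, 0, x.v.2), (0, x.c), x.l⟩, rfl⟩

end Pool.Agent.Results.MP_36bee3_al.NotR0
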